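import Pool.Agent.helper87.TR.Spec

/-!
# MP_3221a1_ag: row tr:RT
-/

set_option autoImplicit false

namespace Pool.Agent.helper87.TR

open Polynomial Finset Module FP97
open Pool.Agent.helper97.FP

theorem RT_alg (p1 q1 p2 q2 c0 c1 c2 : ℂ) (hW : p1 * q2 - p2 * q1 ≠ 0) (hc : c1 ^ 2 ≠ 4 * c0 * c2)
    (hA : c0 * p1 ^ 2 + c1 * (p1 * p2) + c2 * p2 ^ 2 ≠ 0) :
    ∃ b b' : ℂ, b ≠ b' ∧
      c0 * (q1 - b * p1) ^ 2 + c1 * ((q1 - b * p1) * (q2 - b * p2)) + c2 * (q2 - b * p2) ^ 2 = 0 ∧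
      c0 * (q1 - b' * p1) ^ 2 + c1 * ((q1 - b' * p1) * (q2 - b' * p2)) + c2 * (q2 - b' * p2) ^ 2
        = 0 := by
  obtain ⟨s, hs⟩ := IsAlgClosed.exists_eq_mul_self (c1 ^ 2 - 4 * c0 * c2)
  have hs0 : s ≠ 0 := by
    rintro rfl
    rw [mul_zero] at hs
    exact hc (sub_eq_zero.1 hs)
  set A : ℂ := c0 * p1 ^ 2 + c1 * (p1 * p2) + c2 * p2 ^ 2 with hAdef
  set B : ℂ := -(2 * c0 * q1 * p1 + c1 * (q1 * p2 + q2 * p1) + 2 * c2 * q2 * p2) with hB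
  set t : ℂ := s * (p1 * q2 - p2 * q1) with ht
  have ht0 : t ≠ 0 := mul_ne_zero hs0 hW
  have key : ∀ b : ℂ, (2 * A * b + B) ^ 2 = t ^ 2 →
      c0 * (q1 - b * p1) ^ 2 + c1 * ((q1 - b * p1) * (q2 - b * p2)) + c2 * (q2 - b * p2) ^ 2 = 0 := by
    intro b hb
    have h4 : 4 * A ≠ 0 := mul_ne_zero (by norm_num) hA
    have h5 : 4 * A * (c0 * (q1 - b * p1) ^ 2 + c1 * ((q1 - b * p1) * (q2 - b * p2)) +
        c2 * (q2 - b * p2) ^ 2) = (2 * A * b + B) ^ 2 - t ^ 2 := by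
      rw [ht, mul_pow, sq s, ← hs, hAdef, hB]
      ring
    rw [hb, sub_self] at h5
    exact (mul_eq_zero.1 h5).resolve_left h4
  have e1 : 2 * A * ((-B + t) / (2 * A)) + B = t := by
    field_simp
    ring
  have e2 : 2 * A * ((-B - t) / (2 * A)) + B = -t := by
    field_simp
    ring
  refine ⟨(-B + t) / (2 * A), (-B - t) / (2 * A), ?_, key _ (by rw [e1]), key _ (by rw [e2, neg_sq])⟩
  intro h
  rw [h, e2] at e1
  have h6 : t + t = 0 := by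
    nth_rewrite 1 [← e1]
    ring
  exact ht0 (add_self_eq_zero.1 h6)

theorem RT : RT_stmt := by
  intro P1 Q1 P2 Q2 x c hW hc hA
  obtain ⟨b, b', hne, h1, h2⟩ := RT_alg (P1.eval x) (Q1.eval x) (P2.eval x) (Q2.eval x)
    (c 0) (c 1) (c 2) hW hc hA
  exact ⟨b, b', hne, h1, h2⟩

end Pool.Agent.helper87.TR
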